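import Pool.Agent.H97.TA.Loops
import Pool.Agent.H51.TA.Defs

/-!
# Combinatorics of the glued form (job TA-F)
-/

set_option autoImplicit false

namespace Pool.Agent.H97.TA

open Pool.Agent.H51.TA

theorem loopsAround_eq (f g : ℤ → ℤ) (c : ℤ) : loopsAround f g c = around f g c := rfl

section Pattern

variable {L : ℕ} (π : Pat L)

theorem per_mul (x k : ℤ) : π.t (x + k * L) = π.t x + k * L := by
  induction k using Int.induction_on with
  | zero => simp
  | succ k ih =>
    rw [show x + ((k : ℤ) + 1) * L = (x + k * L) + L by ring, π.per, ih]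
    ring
  | pred k ih =>
    have h := π.per (x + (-(k : ℤ) - 1) * L)
    rw [show x + (-(k : ℤ) - 1) * L + L = x + (-(k : ℤ)) * L by ring, ih] at h
    linarith

theorem t_lt (hL : 0 < L) (x : ℤ) : π.t x < x + L := by
  by_contra hcon
  push Not at hcon
  have hLpos : 0 < (L : ℤ) := by exact_mod_cast hL
  rcases eq_or_lt_of_le hcon with h | h
  · have h1 := π.per x
    rw [h, π.inv] at h1
    linarith
  · have h1 := π.nc x (x + L) (by linarith) h
    rw [π.per] at h1
    linarith [h1.2]

/-- The residues `i`, `i + 1` modulo `L`. -/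
def II (L : ℕ) (i : ℤ) (x : ℤ) : Prop := (x - i) % L = 0 ∨ (x - i - 1) % L = 0

instance (L : ℕ) (i : ℤ) : DecidablePred (II L i) := fun x => by
  unfold II; infer_instance

/-- The exchange of `i` and `i + 1` modulo `L`. -/
def ss (L : ℕ) (i : ℤ) (x : ℤ) : ℤ := if (x - i) % L = 0 then x + 1 else x - 1

theorem not_both {L : ℕ} (hL : 2 ≤ L) {y : ℤ} (h1 : y % L = 0) (h2 : (y - 1) % L = 0) : False := by
  rw [← Int.dvd_iff_emod_eq_zero] at h1 h2
  have h3 : (L : ℤ) ∣ 1 := by
    have := Int.dvd_sub h1 h2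
    simpa using this
  have h4 := Int.le_of_dvd one_pos h3
  omega

theorem eFun_eq {L : ℕ} (i : ℤ) (t : ℤ → ℤ) :
    eFun L i t = E (II L i) (ss L i) t := by
  funext x
  unfold eFun E II ss
  by_cases h1 : (x - i) % L = 0
  · simp [h1]
  · by_cases h2 : (x - i - 1) % L = 0
    · simp [h1, h2]
    · by_cases h3 : (t x - i) % L = 0
      · simp [h1, h2, h3]
      · by_cases h4 : (t x - i - 1) % L = 0
        · simp [h1, h2, h3, h4]
        · simp [h1, h2, h3, h4]

theorem II_ss {L : ℕ} (i x : ℤ) (h : II L i x) : II L i (ss L i x) := by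
  unfold II ss at *
  by_cases h1 : (x - i) % L = 0
  · rw [if_pos h1]
    right
    rw [← h1]; congr 1; ring
  · rw [if_neg h1]
    left
    have h2 := h.resolve_left h1
    rw [← h2]; congr 1; ring

theorem ss_ss {L : ℕ} (hL : 2 ≤ L) (i x : ℤ) (h : II L i x) : ss L i (ss L i x) = x := by
  unfold II ss at *
  by_cases h1 : (x - i) % L = 0
  · rw [if_pos h1]
    have h2 : ¬ (x + 1 - i) % L = 0 := by
      intro h2
      refine not_both hL h2 ?_
      rw [← h1]; congr 1; ring
    rw [if_neg h2]; ring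
  · rw [if_neg h1]
    have h2 := h.resolve_left h1
    have h3 : (x - 1 - i) % L = 0 := by rw [← h2]; congr 1; ring
    rw [if_pos h3]; ring

theorem ss_ne {L : ℕ} (i x : ℤ) : ss L i x ≠ x := by
  unfold ss
  split_ifs <;> omega

theorem ss_lt {L : ℕ} (hL : 2 ≤ L) (i c x : ℤ) (hc : ¬ (i + 1 - c) % L = 0) (h : II L i x) :
    ss L i x < c ↔ x < c := by
  unfold II ss at *
  by_cases h1 : (x - i) % L = 0
  · rw [if_pos h1]
    have h2 : x + 1 ≠ c := by
      rintro rfl
      apply hc
      rw [← Int.dvd_iff_emod_eq_zero] at h1 ⊢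
      have := Int.dvd_neg.mpr h1
      rw [show i + 1 - (x + 1) = -(x - i) by ring]
      exact this
    omega
  · rw [if_neg h1]
    have h2 := h.resolve_left h1
    have h3 : x ≠ c := by
      rintro rfl
      apply hc
      rw [← Int.dvd_iff_emod_eq_zero] at h2 ⊢
      have := Int.dvd_neg.mpr h2
      rw [show i + 1 - x = -(x - i - 1) by ring]
      exact this
    omega

theorem II_t (i x : ℤ) (h1 : II L i x) (h2 : II L i (π.t x)) : II L i (π.t (ss L i x)) := by
  -- the residues are different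
  have hsame : ¬ (L : ℤ) ∣ π.t x - x := by
    rintro ⟨k, hk⟩
    have h3 : π.t x = x + k * L := by linarith
    have h4 := per_mul π x k
    rw [← h3, π.inv] at h4
    have h5 : (k : ℤ) * L = 0 := by linarith
    exact π.ne x (by linarith)
  have hdiff : ∃ k : ℤ, π.t x = ss L i x + k * L := by
    unfold II ss at *
    by_cases h3 : (x - i) % L = 0
    · rw [if_pos h3]
      rw [← Int.dvd_iff_emod_eq_zero] at h3
      rcases h2 with h2 | h2
      · exfalso
        apply hsame
        rw [← Int.dvd_iff_emod_eq_zero] at h2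
        have := Int.dvd_sub h2 h3
        rwa [show π.t x - i - (x - i) = π.t x - x by ring] at this
      · rw [← Int.dvd_iff_emod_eq_zero] at h2
        obtain ⟨k, hk⟩ := Int.dvd_sub h2 h3
        exact ⟨k, by linarith⟩
    · rw [if_neg h3]
      have h4 := h1.resolve_left h3
      rw [← Int.dvd_iff_emod_eq_zero] at h4
      rcases h2 with h2 | h2
      · rw [← Int.dvd_iff_emod_eq_zero] at h2
        obtain ⟨k, hk⟩ := Int.dvd_sub h2 h4
        exact ⟨k, by linarith⟩
      · exfalso
        apply hsame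
        rw [← Int.dvd_iff_emod_eq_zero] at h2
        have := Int.dvd_sub h2 h4
        rwa [show π.t x - i - 1 - (x - i - 1) = π.t x - x by ring] at this
  obtain ⟨k, hk⟩ := hdiff
  have h3 : π.t (ss L i x) = x + (-k) * L := by
    have h4 : ss L i x = π.t x + (-k) * L := by linarith
    rw [h4, per_mul, π.inv]
  rw [h3]
  unfold II at *
  rw [show x + -k * (L : ℤ) - i = x - i + (L : ℤ) * (-k) by ring,
    show x - i + (L : ℤ) * (-k) - 1 = x - i - 1 + (L : ℤ) * (-k) by ring,
    Int.add_mul_emod_self_left, Int.add_mul_emod_self_left]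
  exact h1

end Pattern

theorem around_finite {L : ℕ} (π π' : Pat L) (hL : 0 < L) (c : ℤ) :
    (around π.t π'.t c).Finite := by
  refine ((Set.finite_Ico (c - L) c).image (fun x => {y | LoopV π.t π'.t x y})).subset ?_
  rintro _ ⟨⟨x, rfl⟩, h1, h2⟩
  have h3 : ∃ y, LoopV π.t π'.t x y ∧ y < c ∧ c ≤ π.t y := by
    by_contra hcon
    push Not at hcon
    refine absurd h2 (Nat.not_odd_iff_even.mpr ?_)
    refine even_ncard (h1.subset Set.inter_subset_left) π.t ?_ ?_ ?_
    · rintro y ⟨hy1, hy2⟩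
      exact ⟨LoopV.left' hy1, hcon y hy1 hy2⟩
    · exact fun y _ => π.inv y
    · exact fun y _ => π.ne y
  obtain ⟨y, hy1, hy2, hy3⟩ := h3
  refine ⟨y, ⟨?_, hy2⟩, (LoopV.eq_of hy1).symm⟩
  have := t_lt π hL y
  linarith

theorem loopsAround_finite {L : ℕ} (π π' : Pat L) (hL : 0 < L) (c : ℤ) :
    (loopsAround π.t π'.t c).Finite := around_finite π π' hL c

theorem mc_comm {L : ℕ} (π π' : Pat L) (c : ℤ) : mc π.t π'.t c = mc π'.t π.t c :=
  congrArg Set.ncard (around_comm π.t π'.t c)

/-- Translations. -/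
theorem ncard_around_translate (f g f' g' : ℤ → ℤ) (d c : ℤ) (hf : ∀ x, f' (x + d) = f x + d)
    (hg : ∀ x, g' (x + d) = g x + d) (hf' : ∀ x, f' (f' x) = x) (hg' : ∀ x, g' (g' x) = x) :
    (around f' g' (c + d)).ncard = (around f g c).ncard := by
  refine ncard_around_emb (φ := fun x => x + d) (add_left_injective d) (fun x => (hf x).symm)
    (fun x => (hg x).symm) hf' hg' c (c + d) (fun x => by simp) ?_
  rintro O ⟨⟨x, rfl⟩, _, _⟩
  exact ⟨x - d, by
    show LoopV f' g' x (x - d + d)
    rw [sub_add_cancel]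
    exact LoopV.refl x⟩

theorem mc_rot {L : ℕ} (π π' : Pat L) (c : ℤ) : mc π.rot.t π'.rot.t c = mc π.t π'.t (c + 1) := by
  refine (ncard_around_translate π.rot.t π'.rot.t π.t π'.t 1 c (fun x => ?_) (fun x => ?_) π.inv
    π'.inv).symm
  · show π.t (x + 1) = π.t (x + 1) - 1 + 1
    ring
  · show π'.t (x + 1) = π'.t (x + 1) - 1 + 1
    ring

theorem mc_add {L : ℕ} (π π' : Pat L) (c : ℤ) : mc π.t π'.t (c + L) = mc π.t π'.t c :=
  ncard_around_translate π.t π'.t π.t π'.t L c π.per π'.per π.inv π'.inv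

theorem mc_e {L : ℕ} (hL : 2 ≤ L) (π π' : Pat L) (i c : ℤ) (h : ¬ (i + 1 - c) % L = 0) :
    mc (e i π).t π'.t c = mc π.t (e i π').t c := by
  have h1 : ∀ ρ : Pat L, (e i ρ).t = E (II L i) (ss L i) ρ.t := by
    intro ρ
    rw [← eFun_eq]
    simp [e, hL]
  rw [h1, h1]
  exact ncard_around_E π.inv π'.inv (II_ss i) (ss_ss hL i) (fun x _ => ss_ne i x)
    (fun x => II_t π i x) (fun x => II_t π' i x) c (fun x hx => ss_lt hL i c x h hx)

section Ins

variable {L : ℕ}

theorem up_eq (hL : 0 < L) (y : ℤ) : up L y = (L + 2 : ℤ) * (y / L) + (y % L + 2) := by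
  have := Int.emod_add_mul_ediv y L
  unfold up
  linear_combination -this

theorem up_div (hL : 0 < L) (y : ℤ) : up L y / (L + 2 : ℤ) = y / L := by
  have hLpos : (0 : ℤ) < L := by exact_mod_cast hL
  have h1 := Int.emod_nonneg y hLpos.ne'
  have h2 := Int.emod_lt_of_pos y hLpos
  rw [up_eq hL, Int.ediv_eq_iff_of_pos (by linarith)]
  constructor <;> nlinarith

theorem up_mod (hL : 0 < L) (y : ℤ) : up L y % (L + 2 : ℤ) = y % L + 2 := by
  have h := Int.emod_add_mul_ediv (up L y) (L + 2 : ℤ)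
  rw [up_div hL] at h
  have h2 := up_eq hL y
  linarith

theorem down_up (hL : 0 < L) (y : ℤ) : down L (up L y) = y := by
  unfold down
  rw [up_div hL]
  unfold up
  ring

theorem up_injective (hL : 0 < L) : Function.Injective (up L) :=
  Function.LeftInverse.injective (down_up hL)

theorem up_lt_iff (hL : 0 < L) {c : ℤ} (h1 : 2 ≤ c) (h2 : c ≤ L + 2) (y : ℤ) :
    up L y < c ↔ y < c - 2 := by
  have hLpos : (0 : ℤ) < L := by exact_mod_cast hL
  have h3 := Int.emod_nonneg y hLpos.ne'
  have h4 := Int.emod_lt_of_pos y hLpos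
  have h5 := Int.emod_add_mul_ediv y L
  unfold up
  rcases lt_trichotomy (y / L) 0 with h | h | h
  · constructor
    · intro _; nlinarith
    · intro _; nlinarith
  · rw [h]
    constructor <;> intro _ <;> linarith
  · constructor
    · intro h6; nlinarith
    · intro h6; nlinarith

theorem up_lt_one_iff (hL : 0 < L) (y : ℤ) : up L y < 1 ↔ y < 0 := by
  have hLpos : (0 : ℤ) < L := by exact_mod_cast hL
  have h3 := Int.emod_nonneg y hLpos.ne'
  have h4 := Int.emod_lt_of_pos y hLpos
  have h5 := Int.emod_add_mul_ediv y L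
  unfold up
  rcases lt_or_ge (y / L) 0 with h | h
  · constructor
    · intro _; nlinarith
    · intro _; nlinarith
  · constructor
    · intro h6; nlinarith
    · intro h6; nlinarith

theorem insFun_up (hL : 0 < L) (t : ℤ → ℤ) (y : ℤ) : insFun L t (up L y) = up L (t y) := by
  have hLpos : (0 : ℤ) < L := by exact_mod_cast hL
  have h1 := up_mod hL y
  have h3 := Int.emod_nonneg y hLpos.ne'
  have h4 := Int.emod_lt_of_pos y hLpos
  have h5 : ¬ up L y % (L + 2 : ℤ) = 0 := by rw [h1]; omega
  have h6 : ¬ (up L y - 1) % (L + 2 : ℤ) = 0 := by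
    rw [Int.sub_emod, h1]
    have : (1 : ℤ) % (L + 2 : ℤ) = 1 := Int.emod_eq_of_lt (by norm_num) (by linarith)
    rw [this, show y % (L : ℤ) + 2 - 1 = y % L + 1 by ring,
      Int.emod_eq_of_lt (by linarith) (by linarith)]
    omega
  unfold insFun
  rw [if_neg h5, if_neg h6, down_up hL]

theorem up_down (hL : 0 < L) {x : ℤ} (h1 : ¬ x % (L + 2 : ℤ) = 0) (h2 : ¬ (x - 1) % (L + 2 : ℤ) = 0) :
    up L (down L x) = x := by
  have hLpos : (0 : ℤ) < L := by exact_mod_cast hL
  have h3 := Int.emod_nonneg x (show (L + 2 : ℤ) ≠ 0 by linarith)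
  have h4 := Int.emod_lt_of_pos x (show (0 : ℤ) < L + 2 by linarith)
  have h5 := Int.emod_add_mul_ediv x (L + 2 : ℤ)
  have h6 : x % (L + 2 : ℤ) ≠ 1 := by
    intro h6
    apply h2
    rw [Int.sub_emod, h6]
    simp
  have h7 : 2 ≤ x % (L + 2 : ℤ) := by omega
  have h8 : down L x / (L : ℤ) = x / (L + 2 : ℤ) := by
    unfold down
    rw [Int.ediv_eq_iff_of_pos hLpos]
    constructor <;> nlinarith
  unfold up
  rw [h8]
  unfold down
  ring

theorem insFun_small (hL : 0 < L) (t : ℤ → ℤ) {x : ℤ}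
    (h : x % (L + 2 : ℤ) = 0 ∨ (x - 1) % (L + 2 : ℤ) = 0) :
    insFun L t x = if x % (L + 2 : ℤ) = 0 then x + 1 else x - 1 := by
  unfold insFun
  by_cases h1 : x % (L + 2 : ℤ) = 0
  · rw [if_pos h1, if_pos h1]
  · rw [if_neg h1, if_neg h1, if_pos (h.resolve_left h1)]

variable [NeZero L] (α β : Pat L)

theorem ins_t : (ins α).t = insFun L α.t := rfl

/-- Closed loops avoiding the old positions. -/
theorem exists_straddle {c : ℤ} {O : Set ℤ} (hO : O ∈ around (ins α).t (ins β).t c)
    (hno : ¬ ∃ x, up L x ∈ O) : ∃ y ∈ O, y % (L + 2 : ℤ) = 0 ∧ y + 1 = c := by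
  have hL : 0 < L := Nat.pos_of_ne_zero (NeZero.ne L)
  obtain ⟨⟨x, rfl⟩, h1, h2⟩ := hO
  have hres : ∀ y, LoopV (ins α).t (ins β).t x y →
      y % (L + 2 : ℤ) = 0 ∨ (y - 1) % (L + 2 : ℤ) = 0 := by
    intro y hy
    by_contra hcon
    push Not at hcon
    apply hno
    refine ⟨down L y, ?_⟩
    rw [up_down hL hcon.1 hcon.2]
    exact hy
  have h3 : ∃ y, LoopV (ins α).t (ins β).t x y ∧ y < c ∧ c ≤ (ins α).t y := by
    by_contra hcon
    push Not at hcon
    refine absurd h2 (Nat.not_odd_iff_even.mpr ?_)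
    refine even_ncard (h1.subset Set.inter_subset_left) (ins α).t ?_ ?_ ?_
    · rintro y ⟨hy1, hy2⟩
      exact ⟨LoopV.left' hy1, hcon y hy1 hy2⟩
    · exact fun y _ => (ins α).inv y
    · exact fun y _ => (ins α).ne y
  obtain ⟨y, hy1, hy2, hy3⟩ := h3
  have h4 := insFun_small hL α.t (hres y hy1)
  rw [ins_t, h4] at hy3
  by_cases h5 : y % (L + 2 : ℤ) = 0
  · rw [if_pos h5] at hy3
    exact ⟨y, hy1, h5, by omega⟩
  · rw [if_neg h5] at hy3
    omega

/-- the gap `c ∈ [2, L + 2]` of the new pattern is the gap `c - 2` of the old pattern -/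
theorem mc_ins (c : ℤ) (h1 : 2 ≤ c) (h2 : c ≤ L + 2) :
    mc (ins α).t (ins β).t c = mc α.t β.t (c - 2) := by
  have hL : 0 < L := Nat.pos_of_ne_zero (NeZero.ne L)
  refine ncard_around_emb (up_injective hL) (fun x => (insFun_up hL α.t x).symm)
    (fun x => (insFun_up hL β.t x).symm) (ins α).inv (ins β).inv (c - 2) c (up_lt_iff hL h1 h2) ?_
  intro O hO
  by_contra hno
  obtain ⟨y, _, hy2, hy3⟩ := exists_straddle α β hO hno
  have h3 : y = c - 1 := by linarith
  rw [h3, Int.emod_eq_of_lt (by linarith) (by linarith)] at hy2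
  linarith

theorem mc_ins_one : mc (ins α).t (ins β).t 1 = mc α.t β.t 0 + 1 := by
  have hL : 0 < L := Nat.pos_of_ne_zero (NeZero.ne L)
  have hLpos : (0 : ℤ) < L := by exact_mod_cast hL
  have himg : {O ∈ around (ins α).t (ins β).t 1 | ∃ x, up L x ∈ O} =
      (fun O => up L '' O) '' around α.t β.t 0 := image_around (up_injective hL) (fun x => (insFun_up hL α.t x).symm)
    (fun x => (insFun_up hL β.t x).symm) (ins α).inv (ins β).inv 0 1 (up_lt_one_iff hL)
  have h0 : ∀ γ : Pat L, (ins γ).t 0 = 1 := by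
    intro γ
    rw [ins_t, insFun_small hL γ.t (Or.inl (by simp))]
    simp
  have h1 : ∀ γ : Pat L, (ins γ).t 1 = 0 := by
    intro γ
    rw [← h0 γ, (ins γ).inv]
  have hcl : {y | LoopV (ins α).t (ins β).t 0 y} = {0, 1} := by
    ext y
    constructor
    · intro h
      refine (LoopV.closed (S := fun y => y ∈ ({0, 1} : Set ℤ)) (ins α).inv (ins β).inv
        ?_ ?_ h).mp (Or.inl rfl)
      · rintro y (rfl | hy)
        · rw [h0]; exact Or.inr rfl
        · rw [Set.mem_singleton_iff] at hy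
          subst hy
          rw [h1]; exact Or.inl rfl
      · rintro y (rfl | hy)
        · rw [h0]; exact Or.inr rfl
        · rw [Set.mem_singleton_iff] at hy
          subst hy
          rw [h1]; exact Or.inl rfl
    · rintro (rfl | hy)
      · exact LoopV.refl 0
      · rw [Set.mem_singleton_iff] at hy
        subst hy
        have := LoopV.left (f := (ins α).t) (g := (ins β).t) 0
        rwa [h0] at this
  have hup : ∀ x, up L x ∉ ({0, 1} : Set ℤ) := by
    intro x hx
    have h3 := up_mod hL x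
    have h4 := Int.emod_nonneg x hLpos.ne'
    rcases hx with hx | hx
    · rw [hx] at h3
      simp at h3
      omega
    · rw [Set.mem_singleton_iff] at hx
      rw [hx, Int.emod_eq_of_lt (by norm_num) (by linarith)] at h3
      omega
  have hset : around (ins α).t (ins β).t 1 =
      insert ({0, 1} : Set ℤ) {O ∈ around (ins α).t (ins β).t 1 | ∃ x, up L x ∈ O} := by
    ext O
    constructor
    · intro hO
      by_cases hno : ∃ x, up L x ∈ O
      · exact Or.inr ⟨hO, hno⟩
      · left
        obtain ⟨y, hy1, _, hy3⟩ := exists_straddle α β hO hno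
        have hy0 : y = 0 := by linarith
        subst hy0
        obtain ⟨⟨x, rfl⟩, _, _⟩ := hO
        rw [← hcl]
        exact LoopV.eq_of hy1
    · rintro (rfl | hO)
      · refine ⟨⟨0, hcl.symm⟩, Set.toFinite _, ?_⟩
        have : ({0, 1} : Set ℤ) ∩ Set.Iio 1 = {0} := by
          ext y
          simp only [Set.mem_inter_iff, Set.mem_insert_iff, Set.mem_singleton_iff, Set.mem_Iio]
          omega
        rw [this, Set.ncard_singleton]
        decide
      · exact hO.1
  show (around (ins α).t (ins β).t 1).ncard = (around α.t β.t 0).ncard + 1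
  have hfin : {O ∈ around (ins α).t (ins β).t 1 | ∃ x, up L x ∈ O}.Finite := by
    rw [himg]
    exact (around_finite α β hL 0).image _
  have hnot : ({0, 1} : Set ℤ) ∉ {O ∈ around (ins α).t (ins β).t 1 | ∃ x, up L x ∈ O} := by
    rintro ⟨_, x, hx⟩
    exact hup x hx
  rw [hset, Set.ncard_insert_of_notMem hnot hfin, himg,
    Set.ncard_image_of_injective _ (Set.image_injective.mpr (up_injective hL))]

end Ins

end Pool.Agent.H97.TA
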