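import Mathlib

/-!
# Loops of pairs of involutions, and moving a Temperley–Lieb generator across the gluing
-/

set_option autoImplicit false

namespace Pool.Agent.H97.TA

/-- The equivalence relation generated by two maps. -/
def LoopV {V : Type} (f g : V → V) : V → V → Prop := Relation.EqvGen (fun x y => y = f x ∨ y = g x)

section Basic

variable {V : Type} {f g : V → V}

theorem LoopV.refl (x : V) : LoopV f g x x := Relation.EqvGen.refl x

theorem LoopV.symm {x y : V} (h : LoopV f g x y) : LoopV f g y x := Relation.EqvGen.symm _ _ h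

theorem LoopV.trans {x y z : V} (h : LoopV f g x y) (h' : LoopV f g y z) : LoopV f g x z :=
  Relation.EqvGen.trans _ _ _ h h'

theorem LoopV.left (x : V) : LoopV f g x (f x) := Relation.EqvGen.rel _ _ (Or.inl rfl)

theorem LoopV.right (x : V) : LoopV f g x (g x) := Relation.EqvGen.rel _ _ (Or.inr rfl)

theorem LoopV.left' {x y : V} (h : LoopV f g x y) : LoopV f g x (f y) := h.trans (LoopV.left y)

theorem LoopV.right' {x y : V} (h : LoopV f g x y) : LoopV f g x (g y) := h.trans (LoopV.right y)

theorem LoopV.closed (hf : ∀ x, f (f x) = x) (hg : ∀ x, g (g x) = x) {S : V → Prop}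
    (h1 : ∀ y, S y → S (f y)) (h2 : ∀ y, S y → S (g y)) {x y : V} (h : LoopV f g x y) :
    S x ↔ S y := by
  induction h with
  | rel x y h =>
    rcases h with rfl | rfl
    · exact ⟨h1 x, fun h => by have := h1 _ h; rwa [hf] at this⟩
    · exact ⟨h2 x, fun h => by have := h2 _ h; rwa [hg] at this⟩
  | refl x => exact Iff.rfl
  | symm x y _ ih => exact ih.symm
  | trans x y z _ _ ih1 ih2 => exact ih1.trans ih2

theorem LoopV.comm {x y : V} : LoopV f g x y ↔ LoopV g f x y := by
  have : (fun x y : V => y = f x ∨ y = g x) = fun x y => y = g x ∨ y = f x := by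
    funext x y; exact propext or_comm
  rw [LoopV, LoopV, this]

theorem LoopV.eq_of {x y : V} (h : LoopV f g x y) : {z | LoopV f g x z} = {z | LoopV f g y z} := by
  ext z
  exact ⟨fun h' => h.symm.trans h', fun h' => h.trans h'⟩

theorem LoopV.mono {V' : Type} {f' g' : V' → V'} (φ : V → V') (hf : ∀ x, LoopV f' g' (φ x) (φ (f x)))
    (hg : ∀ x, LoopV f' g' (φ x) (φ (g x))) {x y : V} (h : LoopV f g x y) :
    LoopV f' g' (φ x) (φ y) := by
  induction h with
  | rel x y h =>
    rcases h with rfl | rfl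
    · exact hf x
    · exact hg x
  | refl x => exact LoopV.refl _
  | symm x y _ ih => exact ih.symm
  | trans x y z _ _ ih1 ih2 => exact ih1.trans ih2

end Basic

/-- A finite set with an involution without fixed points has an even number of elements. -/
theorem even_ncard {α : Type} {A : Set α} (hA : A.Finite) (s : α → α) (h1 : ∀ x ∈ A, s x ∈ A)
    (h2 : ∀ x ∈ A, s (s x) = x) (h3 : ∀ x ∈ A, s x ≠ x) : Even A.ncard := by
  classical
  rw [Set.ncard_eq_toFinset_card A hA, ← ZMod.natCast_eq_zero_iff_even, Finset.card_eq_sum_ones,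
    Nat.cast_sum]
  refine Finset.sum_involution (fun a _ => s a) ?_ ?_ ?_ ?_
  · intro a _
    decide
  · intro a ha _
    exact h3 a (hA.mem_toFinset.mp ha)
  · intro a ha
    exact hA.mem_toFinset.mpr (h1 a (hA.mem_toFinset.mp ha))
  · intro a ha
    exact h2 a (hA.mem_toFinset.mp ha)

/-- The closed loops around a gap. -/
def around (f g : ℤ → ℤ) (c : ℤ) : Set (Set ℤ) :=
  {O | (∃ x, O = {y | LoopV f g x y}) ∧ O.Finite ∧ Odd (O ∩ Set.Iio c).ncard}

theorem around_comm (f g : ℤ → ℤ) (c : ℤ) : around f g c = around g f c := by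
  unfold around
  have : ∀ x, {y | LoopV f g x y} = {y | LoopV g f x y} := by
    intro x; ext y; exact LoopV.comm
  simp only [this]

theorem ne_empty_of_odd {O : Set ℤ} {c : ℤ} (h : Odd (O ∩ Set.Iio c).ncard) :
    ∃ x ∈ O, x < c := by
  by_contra hcon
  push Not at hcon
  have : O ∩ Set.Iio c = ∅ := by
    ext x
    simp only [Set.mem_inter_iff, Set.mem_Iio, Set.mem_empty_iff_false, iff_false, not_and, not_lt]
    exact hcon x
  rw [this, Set.ncard_empty] at h
  exact absurd h (by decide)

/-! ## Embeddings -/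

section Emb

variable {f g f' g' : ℤ → ℤ} {φ : ℤ → ℤ} (hφ : Function.Injective φ)
  (hf : ∀ x, φ (f x) = f' (φ x)) (hg : ∀ x, φ (g x) = g' (φ x))
  (hf' : ∀ x, f' (f' x) = x) (hg' : ∀ x, g' (g' x) = x)
include hf hg hf' hg'

theorem image_class (x : ℤ) : {z | LoopV f' g' (φ x) z} = φ '' {y | LoopV f g x y} := by
  ext z
  constructor
  · intro h
    have h1 := (LoopV.closed (S := fun z => ∃ y, LoopV f g x y ∧ φ y = z) hf' hg' ?_ ?_ h).mp
      ⟨x, LoopV.refl x, rfl⟩
    · obtain ⟨y, hy, rfl⟩ := h1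
      exact ⟨y, hy, rfl⟩
    · rintro _ ⟨y, hy, rfl⟩
      exact ⟨f y, hy.left', hf y⟩
    · rintro _ ⟨y, hy, rfl⟩
      exact ⟨g y, hy.right', hg y⟩
  · rintro ⟨y, hy, rfl⟩
    refine LoopV.mono φ (fun x => ?_) (fun x => ?_) hy
    · rw [hf]; exact LoopV.left _
    · rw [hg]; exact LoopV.right _

include hφ in
theorem image_around (c c' : ℤ) (hc : ∀ x, φ x < c' ↔ x < c) :
    {O ∈ around f' g' c' | ∃ x, φ x ∈ O} = (fun O => φ '' O) '' around f g c := by
  have hcl := image_class hf hg hf' hg'
  have hint : ∀ O : Set ℤ, φ '' O ∩ Set.Iio c' = φ '' (O ∩ Set.Iio c) := by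
    intro O
    ext z
    constructor
    · rintro ⟨⟨y, hy, rfl⟩, h⟩
      exact ⟨y, ⟨hy, (hc y).mp h⟩, rfl⟩
    · rintro ⟨y, ⟨hy, h⟩, rfl⟩
      exact ⟨⟨y, hy, rfl⟩, (hc y).mpr h⟩
  ext O
  constructor
  · rintro ⟨⟨⟨x, rfl⟩, h1, h2⟩, y, hy⟩
    have h3 : {z | LoopV f' g' x z} = {z | LoopV f' g' (φ y) z} := LoopV.eq_of hy
    rw [h3, hcl] at h1 h2 ⊢
    refine ⟨_, ⟨⟨y, rfl⟩, ?_, ?_⟩, rfl⟩
    · exact Set.Finite.of_finite_image h1 hφ.injOn
    · rw [hint, Set.ncard_image_of_injective _ hφ] at h2
      exact h2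
  · rintro ⟨O', ⟨⟨x, rfl⟩, h1, h2⟩, rfl⟩
    refine ⟨⟨⟨φ x, (hcl x).symm⟩, h1.image φ, ?_⟩, x, ⟨x, LoopV.refl x, rfl⟩⟩
    show Odd (φ '' _ ∩ Set.Iio c').ncard
    rw [hint, Set.ncard_image_of_injective _ hφ]
    exact h2

include hφ in
theorem ncard_around_emb (c c' : ℤ) (hc : ∀ x, φ x < c' ↔ x < c)
    (hall : ∀ O ∈ around f' g' c', ∃ x, φ x ∈ O) :
    (around f' g' c').ncard = (around f g c).ncard := by
  have h1 := image_around hφ hf hg hf' hg' c c' hc
  have h2 : {O ∈ around f' g' c' | ∃ x, φ x ∈ O} = around f' g' c' := by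
    ext O
    exact ⟨fun h => h.1, fun h => ⟨h, hall O h⟩⟩
  rw [← h2, h1, Set.ncard_image_of_injective _ (Set.image_injective.mpr hφ)]

end Emb

/-! ## Moving the generator -/

section Move

variable (I : ℤ → Prop) [DecidablePred I] (s : ℤ → ℤ)

/-- The generator acting on an involution. -/
def E (f : ℤ → ℤ) (x : ℤ) : ℤ := if I x then s x else if I (f x) then f (s (f x)) else f x

variable (h : Bool → ℤ → ℤ)

/-- The arcs of the two levels. -/
def aMap (v : ℤ × Bool) : ℤ × Bool := (h v.2 v.1, v.2)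

/-- The middle layer. -/
def mMap (v : ℤ × Bool) : ℤ × Bool := if I v.1 then (s v.1, v.2) else (v.1, !v.2)

variable {I s h} (hh : ∀ b x, h b (h b x) = x) (hI : ∀ x, I x → I (s x))
  (hs : ∀ x, I x → s (s x) = x) (hsne : ∀ x, I x → s x ≠ x)
  (hIh : ∀ b x, I x → I (h b x) → I (h b (s x)))

include hh in
omit [DecidablePred I] in
theorem aMap_aMap (v : ℤ × Bool) : aMap h (aMap h v) = v := by
  rcases v with ⟨x, b⟩
  simp [aMap, hh]

include hI hs in
theorem mMap_mMap (v : ℤ × Bool) : mMap I s (mMap I s v) = v := by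
  rcases v with ⟨x, b⟩
  by_cases hx : I x
  · simp [mMap, hx, hI x hx, hs x hx]
  · simp [mMap, hx]

include hh hI hs hIh

theorem loop_iff (b : Bool) (x y : ℤ) :
    LoopV (E I s (h !b)) (h b) x y ↔ LoopV (aMap h) (mMap I s) (x, b) (y, b) := by
  constructor
  · refine LoopV.mono (fun x => (x, b)) (fun x => ?_) (fun x => ?_)
    · -- the generator
      unfold E
      by_cases hx : I x
      · rw [if_pos hx]
        have : ((s x, b) : ℤ × Bool) = mMap I s (x, b) := by simp [mMap, hx]
        rw [this]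
        exact LoopV.right _
      · rw [if_neg hx]
        have h1 : LoopV (aMap h) (mMap I s) (x, b) (x, !b) := by
          have : ((x, !b) : ℤ × Bool) = mMap I s (x, b) := by simp [mMap, hx]
          rw [this]
          exact LoopV.right _
        have h2 : LoopV (aMap h) (mMap I s) (x, !b) (h (!b) x, !b) :=
          LoopV.left (f := aMap h) (g := mMap I s) (x, !b)
        by_cases hfx : I (h (!b) x)
        · rw [if_pos hfx]
          have h3 : LoopV (aMap h) (mMap I s) (h (!b) x, !b) (s (h (!b) x), !b) := by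
            have : ((s (h (!b) x), !b) : ℤ × Bool) = mMap I s (h (!b) x, !b) := by
              simp [mMap, hfx]
            rw [this]
            exact LoopV.right _
          have h4 : LoopV (aMap h) (mMap I s) (s (h (!b) x), !b) (h (!b) (s (h (!b) x)), !b) :=
            LoopV.left (f := aMap h) (g := mMap I s) (s (h (!b) x), !b)
          have hn : ¬ I (h (!b) (s (h (!b) x))) := by
            intro hn
            have := hIh (!b) _ (hI _ hfx) hn
            rw [hs _ hfx, hh] at this
            exact hx this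
          have h5 : LoopV (aMap h) (mMap I s) (h (!b) (s (h (!b) x)), !b)
              (h (!b) (s (h (!b) x)), b) := by
            have : ((h (!b) (s (h (!b) x)), b) : ℤ × Bool) =
                mMap I s (h (!b) (s (h (!b) x)), !b) := by
              simp [mMap, hn]
            rw [this]
            exact LoopV.right _
          exact (((h1.trans h2).trans h3).trans h4).trans h5
        · rw [if_neg hfx]
          have h3 : LoopV (aMap h) (mMap I s) (h (!b) x, !b) (h (!b) x, b) := by
            have : ((h (!b) x, b) : ℤ × Bool) = mMap I s (h (!b) x, !b) := by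
              simp [mMap, hfx]
            rw [this]
            exact LoopV.right _
          exact (h1.trans h2).trans h3
    · exact LoopV.left (f := aMap h) (g := mMap I s) (x, b)
  · intro hloop
    let f := h (!b)
    let S : ℤ × Bool → Prop := fun v =>
      (v.2 = b ∧ LoopV (E I s (h !b)) (h b) x v.1) ∨
      (v.2 = !b ∧ ¬ I v.1 ∧ LoopV (E I s (h !b)) (h b) x v.1) ∨
      (v.2 = !b ∧ I v.1 ∧ ¬ I (h (!b) v.1) ∧ LoopV (E I s (h !b)) (h b) x (h (!b) v.1))
    have hS := (LoopV.closed (S := S) (aMap_aMap hh) (mMap_mMap hI hs) ?_ ?_ hloop).mp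
      (Or.inl ⟨rfl, LoopV.refl x⟩)
    · rcases hS with h1 | h1 | h1
      · exact h1.2
      · exact absurd h1.1 (by cases b <;> simp)
      · exact absurd h1.1 (by cases b <;> simp)
    · -- closed under `a`
      rintro ⟨z, b'⟩ (⟨hb, hz⟩ | ⟨hb, hzI, hz⟩ | ⟨hb, hzI, hfz, hz⟩)
      · simp only at hb hz
        subst hb
        exact Or.inl ⟨rfl, hz.right'⟩
      · simp only at hb hz hzI
        subst hb
        by_cases hfz : I (h (!b) z)
        · refine Or.inr (Or.inr ⟨rfl, hfz, ?_, ?_⟩)
          · show ¬ I (h (!b) (h (!b) z))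
            rw [hh]; exact hzI
          · show LoopV _ _ x (h (!b) (h (!b) z))
            rw [hh]; exact hz
        · refine Or.inr (Or.inl ⟨rfl, hfz, ?_⟩)
          have h1 : E I s (h !b) z = h (!b) z := by simp [E, hzI, hfz]
          show LoopV _ _ x (h (!b) z)
          rw [← h1]
          exact hz.left'
      · simp only at hb hz hzI hfz
        subst hb
        exact Or.inr (Or.inl ⟨rfl, hfz, hz⟩)
    · -- closed under `m`
      rintro ⟨z, b'⟩ (⟨hb, hz⟩ | ⟨hb, hzI, hz⟩ | ⟨hb, hzI, hfz, hz⟩)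
      · simp only at hb hz
        subst hb
        by_cases hzI : I z
        · have h1 : mMap I s (z, b') = (s z, b') := by simp [mMap, hzI]
          rw [h1]
          refine Or.inl ⟨rfl, ?_⟩
          have h2 : E I s (h !b') z = s z := by simp [E, hzI]
          show LoopV _ _ x (s z)
          rw [← h2]
          exact hz.left'
        · have h1 : mMap I s (z, b') = (z, !b') := by simp [mMap, hzI]
          rw [h1]
          exact Or.inr (Or.inl ⟨rfl, hzI, hz⟩)
      · simp only at hb hz hzI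
        subst hb
        have h1 : mMap I s (z, !b) = (z, b) := by simp [mMap, hzI]
        rw [h1]
        exact Or.inl ⟨rfl, hz⟩
      · simp only at hb hz hzI hfz
        subst hb
        have h1 : mMap I s (z, !b) = (s z, !b) := by simp [mMap, hzI]
        rw [h1]
        have h2 : ¬ I (h (!b) (s z)) := by
          intro hn
          have := hIh (!b) _ (hI _ hzI) hn
          rw [hs _ hzI] at this
          exact hfz this
        refine Or.inr (Or.inr ⟨rfl, hI _ hzI, h2, ?_⟩)
        have h3 : E I s (h !b) (h (!b) z) = h (!b) (s z) := by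
          simp [E, hfz, hh, hzI]
        show LoopV _ _ x (h (!b) (s z))
        rw [← h3]
        exact hz.left'

/-- The part of a set in one level. -/
def lev (b : Bool) (O : Set (ℤ × Bool)) : Set ℤ := {x | (x, b) ∈ O}

/-- The loops of the three layer picture, counted on one level. -/
def KK (I : ℤ → Prop) [DecidablePred I] (s : ℤ → ℤ) (h : Bool → ℤ → ℤ) (b : Bool) (c : ℤ) :
    Set (Set (ℤ × Bool)) :=
  {O | (∃ v, O = {w | LoopV (aMap h) (mMap I s) v w}) ∧ (lev b O).Finite ∧
    Odd (lev b O ∩ Set.Iio c).ncard}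

theorem ncard_KK (b : Bool) (c : ℤ) :
    (around (E I s (h !b)) (h b) c).ncard = (KK I s h b c).ncard := by
  have hl := loop_iff hh hI hs hIh
  have h1 : around (E I s (h !b)) (h b) c = lev b '' KK I s h b c := by
    ext O
    constructor
    · rintro ⟨⟨x, rfl⟩, h1, h2⟩
      have h3 : lev b {w | LoopV (aMap h) (mMap I s) (x, b) w} =
          {y | LoopV (E I s (h !b)) (h b) x y} := by
        ext y
        exact (hl b x y).symm
      refine ⟨{w | LoopV (aMap h) (mMap I s) (x, b) w}, ⟨⟨(x, b), rfl⟩, ?_, ?_⟩, h3⟩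
      · rw [h3]; exact h1
      · rw [h3]; exact h2
    · rintro ⟨O', ⟨⟨v, rfl⟩, h1, h2⟩, rfl⟩
      obtain ⟨x, hx, _⟩ := ne_empty_of_odd h2
      have h3 : {w | LoopV (aMap h) (mMap I s) v w} = {w | LoopV (aMap h) (mMap I s) (x, b) w} :=
        LoopV.eq_of hx
      refine ⟨⟨x, ?_⟩, h1, h2⟩
      rw [h3]
      ext y
      exact (hl b x y).symm
  rw [h1, Set.InjOn.ncard_image]
  rintro _ ⟨⟨v, rfl⟩, h2, h3⟩ _ ⟨⟨v', rfl⟩, h2', h3'⟩ heq
  obtain ⟨x, hx, _⟩ := ne_empty_of_odd h3
  have hx' : x ∈ lev b {w | LoopV (aMap h) (mMap I s) v' w} := by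
    have : lev b {w | LoopV (aMap h) (mMap I s) v w} =
      lev b {w | LoopV (aMap h) (mMap I s) v' w} := heq
    rw [← this]; exact hx
  exact (LoopV.eq_of hx).trans (LoopV.eq_of hx').symm

include hsne

theorem KK_subset (b : Bool) (c : ℤ) (hc : ∀ x, I x → (s x < c ↔ x < c)) :
    KK I s h b c ⊆ KK I s h (!b) c := by
  rintro O ⟨⟨v, rfl⟩, h1, h2⟩
  set O := {w | LoopV (aMap h) (mMap I s) v w} with hO
  have ha : ∀ w ∈ O, aMap h w ∈ O := fun w hw => LoopV.left' hw
  have hm : ∀ w ∈ O, mMap I s w ∈ O := fun w hw => LoopV.right' hw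
  obtain ⟨x0, hx0, _⟩ := ne_empty_of_odd h2
  have hB : lev (!b) O ⊆ lev b O ∪ h (!b) '' lev b O := by
    intro x hx
    by_cases hxI : I x
    · by_cases hfx : I (h (!b) x)
      · exfalso
        have hlx : LoopV (aMap h) (mMap I s) (x, !b) (x0, b) := (LoopV.symm hx).trans hx0
        have hS := (LoopV.closed (S := fun v => v.2 = !b ∧ I v.1 ∧ I (h (!b) v.1))
          (aMap_aMap hh) (mMap_mMap hI hs) ?_ ?_ hlx).mp ⟨rfl, hxI, hfx⟩
        · exact absurd hS.1 (by cases b <;> simp)
        · rintro ⟨z, b'⟩ ⟨hb, hz1, hz2⟩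
          simp only at hb hz1 hz2
          subst hb
          refine ⟨rfl, hz2, ?_⟩
          show I (h (!b) (h (!b) z))
          rw [hh]; exact hz1
        · rintro ⟨z, b'⟩ ⟨hb, hz1, hz2⟩
          simp only at hb hz1 hz2
          subst hb
          have h3 : mMap I s (z, !b) = (s z, !b) := by simp [mMap, hz1]
          rw [h3]
          exact ⟨rfl, hI _ hz1, hIh _ _ hz1 hz2⟩
      · right
        refine ⟨h (!b) x, ?_, hh _ _⟩
        have h3 := hm _ (ha _ hx)
        have h4 : mMap I s (aMap h (x, !b)) = (h (!b) x, b) := by simp [mMap, aMap, hfx]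
        rw [h4] at h3
        exact h3
    · left
      have h3 := hm _ hx
      have h4 : mMap I s (x, !b) = (x, b) := by simp [mMap, hxI]
      rw [h4] at h3
      exact h3
  have hBfin : (lev (!b) O).Finite := (h1.union (h1.image _)).subset hB
  refine ⟨⟨v, rfl⟩, hBfin, ?_⟩
  -- parity
  have hsplit : ∀ b', (lev b' O).Finite →
      (Odd (lev b' O ∩ Set.Iio c).ncard ↔ Odd ((lev b' O ∩ Set.Iio c) \ {x | I x}).ncard) := by
    intro b' hfin
    have hfin' : (lev b' O ∩ Set.Iio c).Finite := hfin.subset Set.inter_subset_left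
    have h3 : Even ((lev b' O ∩ Set.Iio c) ∩ {x | I x}).ncard := by
      refine even_ncard (hfin'.subset Set.inter_subset_left) s ?_ ?_ ?_
      · rintro x ⟨⟨hx1, hx2⟩, hx3⟩
        refine ⟨⟨?_, (hc x hx3).mpr hx2⟩, hI x hx3⟩
        have h4 := hm _ hx1
        have h5 : mMap I s (x, b') = (s x, b') := by
          have : I x := hx3
          simp [mMap, this]
        rw [h5] at h4
        exact h4
      · rintro x ⟨_, hx3⟩
        exact hs x hx3
      · rintro x ⟨_, hx3⟩
        exact hsne x hx3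
    have h4 := Set.ncard_inter_add_ncard_sdiff_eq_ncard (lev b' O ∩ Set.Iio c) {x | I x} hfin'
    rw [← h4, Nat.odd_add]
    constructor
    · intro h5
      by_contra h6
      rw [Nat.not_odd_iff_even] at h6
      exact absurd (h5.mpr h6) (Nat.not_odd_iff_even.mpr h3)
    · intro h5
      constructor
      · intro h6
        exact absurd h6 (Nat.not_odd_iff_even.mpr h3)
      · intro h6
        exact absurd h5 (Nat.not_odd_iff_even.mpr h6)
  rw [hsplit _ hBfin]
  rw [hsplit _ h1] at h2
  have h5 : (lev (!b) O ∩ Set.Iio c) \ {x | I x} = (lev b O ∩ Set.Iio c) \ {x | I x} := by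
    ext x
    simp only [Set.mem_sdiff, Set.mem_inter_iff]
    constructor
    · rintro ⟨⟨hx1, hx2⟩, hx3⟩
      refine ⟨⟨?_, hx2⟩, hx3⟩
      have h3 := hm _ hx1
      have hx3' : ¬ I x := hx3
      have h4 : mMap I s (x, !b) = (x, b) := by simp [mMap, hx3']
      rw [h4] at h3
      exact h3
    · rintro ⟨⟨hx1, hx2⟩, hx3⟩
      refine ⟨⟨?_, hx2⟩, hx3⟩
      have h3 := hm _ hx1
      have hx3' : ¬ I x := hx3
      have h4 : mMap I s (x, b) = (x, !b) := by simp [mMap, hx3']
      rw [h4] at h3
      exact h3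
  rw [h5]
  exact h2

theorem KK_eq (c : ℤ) (hc : ∀ x, I x → (s x < c ↔ x < c)) :
    KK I s h true c = KK I s h false c :=
  Set.Subset.antisymm (KK_subset hh hI hs hsne hIh true c hc)
    (KK_subset hh hI hs hsne hIh false c hc)

end Move

/-- **Moving the generator across the gluing.** -/
theorem ncard_around_E {I : ℤ → Prop} [DecidablePred I] {s : ℤ → ℤ} {f g : ℤ → ℤ}
    (hf : ∀ x, f (f x) = x) (hg : ∀ x, g (g x) = x) (hI : ∀ x, I x → I (s x))
    (hs : ∀ x, I x → s (s x) = x) (hsne : ∀ x, I x → s x ≠ x)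
    (hIf : ∀ x, I x → I (f x) → I (f (s x))) (hIg : ∀ x, I x → I (g x) → I (g (s x)))
    (c : ℤ) (hc : ∀ x, I x → (s x < c ↔ x < c)) :
    (around (E I s f) g c).ncard = (around f (E I s g) c).ncard := by
  let h : Bool → ℤ → ℤ := fun b => if b then g else f
  have hh : ∀ b x, h b (h b x) = x := by
    intro b x
    cases b
    · exact hf x
    · exact hg x
  have hIh : ∀ b x, I x → I (h b x) → I (h b (s x)) := by
    intro b x h1 h2
    cases b
    · exact hIf x h1 h2
    · exact hIg x h1 h2
  have h1 := ncard_KK hh hI hs hIh true c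
  have h2 := ncard_KK hh hI hs hIh false c
  rw [around_comm f]
  have h3 := KK_eq hh hI hs hsne hIh c hc
  calc (around (E I s f) g c).ncard = (KK I s h true c).ncard := h1
    _ = (KK I s h false c).ncard := by rw [h3]
    _ = (around (E I s g) f c).ncard := h2.symm

end Pool.Agent.H97.TA
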